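import Mathlib

set_option autoImplicit false

/-! The stated congruence for `∑ (-1)^k binom(-1/4,k)^2` fails at the prime `41 = 3^2 + 2 * 4^2`. -/

namespace Pool.Agent.Results.MP_17cdb9_nt.Disproof

open Finset

/-- The generalized binomial coefficient `a (a-1) ⋯ (a-k+1) / k!`. -/
def bin (a : ℚ) (k : ℕ) : ℚ := (∏ i ∈ range k, (a - i)) / (k.factorial : ℚ)

/-- `S(p) = ∑_{k=0}^{p-1} (-1)^k binom(-1/4,k)^2`. -/
def S (p : ℕ) : ℚ := ∑ k ∈ range p, (-1) ^ k * (bin (-1 / 4) k) ^ 2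

/-- `u ≡ v (mod p^m)` in the ring of rationals with denominator prime to `p`. -/
def Cong (p m : ℕ) (u v : ℚ) : Prop := ¬ p ∣ ((u - v) / (p : ℚ) ^ m).den

/-- The assertion of Q1 for one odd prime `p`. -/
def Q1at (p : ℕ) : Prop :=
  (p % 8 = 1 → ∀ x y : ℤ, (p : ℤ) = x ^ 2 + 2 * y ^ 2 →
    Cong p 2 (S p) ((-1 : ℚ) ^ ((x + 1) / 2) * (2 * x - p / (2 * x)))) ∧
  (p % 8 = 3 → ∀ x y : ℤ, (p : ℤ) = x ^ 2 + 2 * y ^ 2 →
    Cong p 2 (S p) ((-1 : ℚ) ^ ((y - 1) / 2) * (4 * y - p / (2 * y)))) ∧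
  (p % 8 = 5 ∨ p % 8 = 7 → Cong p 1 (S p) 0)

theorem dvd41 : 41 ∣ ((S 41 - (6 - 41 / 6)) / (41 : ℚ) ^ 2).den := by
  decide +kernel

theorem result : ¬ ∀ p : ℕ, p.Prime → p ≠ 2 → Q1at p := by
  intro h
  have h1 := (h 41 (by norm_num) (by norm_num)).1 (by norm_num) 3 4 (by norm_num)
  apply h1
  have e : (-1 : ℚ) ^ (((3 : ℤ) + 1) / 2) * (2 * ((3 : ℤ) : ℚ) - ((41 : ℕ) : ℚ) / (2 * ((3 : ℤ) : ℚ)))
      = 6 - 41 / 6 := by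
    norm_num
  rw [e]
  exact_mod_cast dvd41

end Pool.Agent.Results.MP_17cdb9_nt.Disproof
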